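import Mathlib

/-!
# Project CP, package COR, part A: sums over quadruples of squarefree numbers
-/

set_option autoImplicit false

namespace Pool.Agent.U928.PL

open Finset

/-- number of divisors -/
noncomputable def dv (n : ℕ) : ℝ := (n.divisors.card : ℝ)

open Classical in
/-- squarefree numbers up to `Y` -/
noncomputable def Sq (Y : ℕ) : Finset ℕ := (Icc 1 Y).filter Squarefree

lemma mem_Sq {Y m : ℕ} : m ∈ Sq Y ↔ (1 ≤ m ∧ m ≤ Y) ∧ Squarefree m := by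
  simp [Sq]

lemma dv_nonneg (n : ℕ) : 0 ≤ dv n := by unfold dv; positivity

lemma dv_mul {a b : ℕ} (h : Nat.Coprime a b) : dv (a * b) = dv a * dv b := by
  unfold dv
  rw [Nat.Coprime.card_divisors_mul h]
  push_cast
  ring

lemma step (Y j : ℕ) : ∑ m ∈ Sq Y, dv m ^ (j + 1) / m ≤ (∑ m ∈ Sq Y, dv m ^ j / m) ^ 2 := by
  have h1 : ∀ m ∈ Sq Y, dv m ^ (j + 1) / m =
      ∑ x ∈ (Sq Y ×ˢ Sq Y).filter (fun x => x.1 * x.2 = m),
        (dv x.1 ^ j / x.1) * (dv x.2 ^ j / x.2) := by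
    intro m hm
    obtain ⟨⟨hm1, hm2⟩, hsq⟩ := mem_Sq.1 hm
    have hset : (Sq Y ×ˢ Sq Y).filter (fun x => x.1 * x.2 = m) = m.divisorsAntidiagonal := by
      ext ⟨a, b⟩
      simp only [mem_filter, mem_product, Nat.mem_divisorsAntidiagonal, mem_Sq]
      constructor
      · rintro ⟨-, h⟩
        exact ⟨h, by omega⟩
      · rintro ⟨h, -⟩
        have ha : a ∣ m := Dvd.intro _ h
        have hb : b ∣ m := Dvd.intro_left _ h
        exact ⟨⟨⟨⟨Nat.pos_of_dvd_of_pos ha hm1, (Nat.le_of_dvd hm1 ha).trans hm2⟩,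
          hsq.squarefree_of_dvd ha⟩, ⟨⟨Nat.pos_of_dvd_of_pos hb hm1,
          (Nat.le_of_dvd hm1 hb).trans hm2⟩, hsq.squarefree_of_dvd hb⟩⟩, h⟩
    rw [hset]
    have h2 : ∀ x ∈ m.divisorsAntidiagonal,
        (dv x.1 ^ j / x.1) * (dv x.2 ^ j / x.2) = dv m ^ j / m := by
      rintro ⟨a, b⟩ hx
      obtain ⟨h, -⟩ := Nat.mem_divisorsAntidiagonal.1 hx
      simp only at h ⊢
      have hc : Nat.Coprime a b := Nat.coprime_of_squarefree_mul (h ▸ hsq)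
      rw [← h, dv_mul hc, mul_pow, div_mul_div_comm]
      push_cast
      rfl
    rw [sum_congr rfl h2, Nat.sum_divisorsAntidiagonal (fun _ _ => dv m ^ j / (m : ℝ)), sum_const,
      nsmul_eq_mul]
    unfold dv
    ring
  rw [sum_congr rfl h1, sq, sum_mul_sum, ← sum_product']
  refine sum_fiberwise_le_sum_of_sum_fiber_nonneg ?_
  intro m _
  refine sum_nonneg ?_
  intro x _
  have := dv_nonneg x.1
  have := dv_nonneg x.2
  positivity

lemma sum_dv (Y : ℕ) : ∑ m ∈ Sq Y, dv m ^ 4 / m ≤ (∑ m ∈ Icc 1 Y, (1 : ℝ) / m) ^ 16 := by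
  have h0 : ∀ j, 0 ≤ ∑ m ∈ Sq Y, dv m ^ j / m := by
    intro j
    refine sum_nonneg ?_
    intro x _
    have := dv_nonneg x
    positivity
  have h1 : ∑ m ∈ Sq Y, dv m ^ 0 / (m : ℝ) ≤ ∑ m ∈ Icc 1 Y, (1 : ℝ) / m := by
    simp only [pow_zero]
    refine sum_le_sum_of_subset_of_nonneg (filter_subset _ _) ?_
    intro i _ _
    positivity
  calc ∑ m ∈ Sq Y, dv m ^ 4 / m ≤ (∑ m ∈ Sq Y, dv m ^ 3 / m) ^ 2 := step Y 3
    _ ≤ ((∑ m ∈ Sq Y, dv m ^ 2 / m) ^ 2) ^ 2 := pow_le_pow_left₀ (h0 3) (step Y 2) 2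
    _ ≤ (((∑ m ∈ Sq Y, dv m ^ 1 / m) ^ 2) ^ 2) ^ 2 :=
        pow_le_pow_left₀ (by positivity) (pow_le_pow_left₀ (h0 2) (step Y 1) 2) 2
    _ ≤ ((((∑ m ∈ Sq Y, dv m ^ 0 / m) ^ 2) ^ 2) ^ 2) ^ 2 :=
        pow_le_pow_left₀ (by positivity) (pow_le_pow_left₀ (by positivity)
          (pow_le_pow_left₀ (h0 1) (step Y 0) 2) 2) 2
    _ ≤ ((((∑ m ∈ Icc 1 Y, (1 : ℝ) / m) ^ 2) ^ 2) ^ 2) ^ 2 := by
        have := h0 0
        gcongr
    _ = (∑ m ∈ Icc 1 Y, (1 : ℝ) / m) ^ 16 := by ring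

lemma sum_dv_dvd (Y l : ℕ) (hl : l.Prime) :
    ∑ m ∈ (Sq Y).filter (fun m => l ∣ m), dv m ^ 4 / m ≤
      16 / l * (∑ m ∈ Icc 1 Y, (1 : ℝ) / m) ^ 16 := by
  have hl0 : (0 : ℝ) < l := by exact_mod_cast hl.pos
  have h1 : ∀ m ∈ (Sq Y).filter (fun m => l ∣ m), dv m ^ 4 / m =
      16 / l * (dv (m / l) ^ 4 / ((m / l : ℕ) : ℝ)) := by
    intro m hm
    obtain ⟨hm1, k, rfl⟩ := mem_filter.1 hm
    obtain ⟨⟨hm1, hm2⟩, hsq⟩ := mem_Sq.1 hm1
    have hc : Nat.Coprime l k := Nat.coprime_of_squarefree_mul hsq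
    rw [Nat.mul_div_cancel_left k hl.pos, dv_mul hc]
    have h2 : dv l = 2 := by
      unfold dv
      rw [hl.divisors, card_insert_of_notMem, card_singleton]
      · norm_num
      · rw [mem_singleton]; exact hl.one_lt.ne
    rw [h2]
    push_cast
    have hk : (k : ℝ) ≠ 0 := by
      rintro h
      have : k = 0 := by exact_mod_cast h
      subst this
      simp at hm1
    field_simp
    ring
  rw [sum_congr rfl h1, ← mul_sum]
  refine mul_le_mul_of_nonneg_left ?_ (by positivity)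
  refine le_trans ?_ (sum_dv Y)
  rw [← sum_image (f := fun m => dv m ^ 4 / (m : ℝ)) (g := fun m => m / l)]
  · refine sum_le_sum_of_subset_of_nonneg ?_ ?_
    · intro k hk
      obtain ⟨m, hm, rfl⟩ := mem_image.1 hk
      obtain ⟨hm1, hlm⟩ := mem_filter.1 hm
      obtain ⟨⟨hm1, hm2⟩, hsq⟩ := mem_Sq.1 hm1
      have hd : m / l ∣ m := Nat.div_dvd_of_dvd hlm
      exact mem_Sq.2 ⟨⟨Nat.pos_of_dvd_of_pos hd hm1, (Nat.le_of_dvd hm1 hd).trans hm2⟩,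
        hsq.squarefree_of_dvd hd⟩
    · intro i _ _
      have := dv_nonneg i
      positivity
  · intro a ha b hb hab
    have h1 := (mem_filter.1 ha).2
    have h2 := (mem_filter.1 hb).2
    simp only at hab
    rw [← Nat.div_mul_cancel h1, ← Nat.div_mul_cancel h2, hab]

/-- the least common multiple of a quadruple -/
def Mq (t : ℕ × ℕ × ℕ × ℕ) : ℕ := Nat.lcm (Nat.lcm t.1 t.2.1) (Nat.lcm t.2.2.1 t.2.2.2)

/-- all components are squarefree -/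
def Adm (t : ℕ × ℕ × ℕ × ℕ) : Prop :=
  Squarefree t.1 ∧ Squarefree t.2.1 ∧ Squarefree t.2.2.1 ∧ Squarefree t.2.2.2

lemma sqf_lcm {a b : ℕ} (ha : Squarefree a) (hb : Squarefree b) : Squarefree (Nat.lcm a b) := by
  have ha0 := ha.ne_zero
  have hb0 := hb.ne_zero
  rw [Nat.squarefree_iff_factorization_le_one (Nat.lcm_ne_zero ha0 hb0)]
  intro p
  rw [Nat.factorization_lcm ha0 hb0]
  simp only [Finsupp.sup_apply, sup_le_iff]
  exact ⟨ha.natFactorization_le_one p, hb.natFactorization_le_one p⟩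

lemma sqf_Mq {t : ℕ × ℕ × ℕ × ℕ} (h : Adm t) : Squarefree (Mq t) :=
  sqf_lcm (sqf_lcm h.1 h.2.1) (sqf_lcm h.2.2.1 h.2.2.2)

lemma quad_aux (Y : ℕ) (Q : Finset (ℕ × ℕ × ℕ × ℕ)) (S : Finset ℕ) (hS : S ⊆ Sq Y)
    (hQ : ∀ t ∈ Q, Mq t ∈ S) : ∑ t ∈ Q, (1 : ℝ) / Mq t ≤ ∑ m ∈ S, dv m ^ 4 / m := by
  rw [← sum_fiberwise_of_maps_to hQ]
  refine sum_le_sum ?_
  intro m hm
  have h1 : ∀ t ∈ Q.filter (fun t => Mq t = m), (1 : ℝ) / Mq t = 1 / m := by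
    intro t ht
    rw [(mem_filter.1 ht).2]
  have hm0 : m ≠ 0 := by
    have := (mem_Sq.1 (hS hm)).1.1
    omega
  rw [sum_congr rfl h1, sum_const, nsmul_eq_mul]
  have h2 : Q.filter (fun t => Mq t = m) ⊆
      m.divisors ×ˢ m.divisors ×ˢ m.divisors ×ˢ m.divisors := by
    intro t ht
    have h3 := (mem_filter.1 ht).2
    simp only [mem_product, Nat.mem_divisors]
    rw [← h3]
    rw [← h3] at hm0
    unfold Mq at hm0 ⊢
    refine ⟨⟨?_, hm0⟩, ⟨?_, hm0⟩, ⟨?_, hm0⟩, ⟨?_, hm0⟩⟩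
    · exact (Nat.dvd_lcm_left _ _).trans (Nat.dvd_lcm_left _ _)
    · exact (Nat.dvd_lcm_right _ _).trans (Nat.dvd_lcm_left _ _)
    · exact (Nat.dvd_lcm_left _ _).trans (Nat.dvd_lcm_right _ _)
    · exact (Nat.dvd_lcm_right _ _).trans (Nat.dvd_lcm_right _ _)
  have h3 := card_le_card h2
  simp only [card_product] at h3
  have h4 : ((Q.filter (fun t => Mq t = m)).card : ℝ) ≤ dv m ^ 4 := by
    unfold dv
    calc ((Q.filter (fun t => Mq t = m)).card : ℝ) ≤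
        ((m.divisors.card * (m.divisors.card * (m.divisors.card * m.divisors.card)) : ℕ) : ℝ) := by
          exact_mod_cast h3
      _ = _ := by push_cast; ring
  rw [mul_one_div]
  gcongr

lemma quad_all (Y : ℕ) (Q : Finset (ℕ × ℕ × ℕ × ℕ)) (hQ : ∀ t ∈ Q, Adm t ∧ Mq t ≤ Y) :
    ∑ t ∈ Q, (1 : ℝ) / Mq t ≤ (∑ m ∈ Icc 1 Y, (1 : ℝ) / m) ^ 16 := by
  refine (quad_aux Y Q (Sq Y) (Subset.refl _) ?_).trans (sum_dv Y)
  intro t ht
  obtain ⟨h1, h2⟩ := hQ t ht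
  have h3 := sqf_Mq h1
  exact mem_Sq.2 ⟨⟨Nat.pos_of_ne_zero h3.ne_zero, h2⟩, h3⟩

lemma quad_dvd (Y : ℕ) (Q : Finset (ℕ × ℕ × ℕ × ℕ)) (hQ : ∀ t ∈ Q, Adm t ∧ Mq t ≤ Y) (l : ℕ)
    (hl : l.Prime) :
    ∑ t ∈ Q.filter (fun t => l ∣ Mq t), (1 : ℝ) / Mq t ≤
      16 / l * (∑ m ∈ Icc 1 Y, (1 : ℝ) / m) ^ 16 := by
  refine (quad_aux Y _ ((Sq Y).filter (fun m => l ∣ m)) (filter_subset _ _) ?_).trans
    (sum_dv_dvd Y l hl)
  intro t ht
  obtain ⟨ht, hlt⟩ := mem_filter.1 ht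
  obtain ⟨h1, h2⟩ := hQ t ht
  have h3 := sqf_Mq h1
  exact mem_filter.2 ⟨mem_Sq.2 ⟨⟨Nat.pos_of_ne_zero h3.ne_zero, h2⟩, h3⟩, hlt⟩

lemma harm_le {N : ℕ} (hN : 3 ≤ N) :
    ∑ m ∈ Icc 1 N, (1 : ℝ) / m ≤ 2 * Real.log N := by
  have h1 := harmonic_le_one_add_log N
  rw [harmonic_eq_sum_Icc] at h1
  push_cast at h1
  have h2 : (1 : ℝ) ≤ Real.log N := by
    rw [Real.le_log_iff_exp_le (by positivity)]
    have := Real.exp_one_lt_d9
    have : (3 : ℝ) ≤ N := by exact_mod_cast hN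
    linarith
  simp only [one_div]
  linarith

lemma card_pf (n : ℕ) (hn : n ≠ 0) : (n.primeFactors.card : ℝ) ≤ 2 * Real.log n := by
  have h1 : 2 ^ n.primeFactors.card ≤ n := by
    calc 2 ^ n.primeFactors.card = ∏ _p ∈ n.primeFactors, 2 := by rw [prod_const]
      _ ≤ ∏ p ∈ n.primeFactors, p := prod_le_prod' (fun p hp => (Nat.prime_of_mem_primeFactors hp).two_le)
      _ ≤ n := Nat.le_of_dvd (Nat.pos_of_ne_zero hn) (Nat.prod_primeFactors_dvd n)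
  have h2 : ((2 : ℝ)) ^ n.primeFactors.card ≤ n := by exact_mod_cast h1
  have h3 := Real.log_le_log (by positivity) h2
  rw [Real.log_pow] at h3
  have h4 := Real.log_two_gt_d9
  have h5 : (0 : ℝ) ≤ n.primeFactors.card := by positivity
  nlinarith

end Pool.Agent.U928.PL
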