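import Pool.Agent.W23.PL.Defs
import Pool.Agent.H442R2.KF.Poi
import Pool.Agent.H442R2.KF.Summ
import Pool.Agent.U928.PL.CorA

/-!
# Project CP, package COR: correlations of divisor sums
-/

set_option autoImplicit false
set_option linter.unusedVariables false

namespace Pool.Agent.U928.PL

open Finset Pool.Agent.H442R2 Pool.Agent.H442R2.KF Pool.Agent.W23.DC Pool.Agent.W23.PL

/-- the conditions on `n` -/
def Cn (a a' : ℤ) (t : ℕ × ℕ × ℕ × ℕ) (n : ℤ) : Prop :=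
  (t.1 : ℤ) ∣ n ∧ (t.2.1 : ℤ) ∣ n ∧ (t.2.2.1 : ℤ) ∣ n - a ∧ (t.2.2.2 : ℤ) ∣ n - a'

open Classical in
/-- the sum for one quadruple -/
noncomputable def St (N : ℕ) (a a' : ℤ) (t : ℕ × ℕ × ℕ × ℕ) : ℝ :=
  ∑' n : ℤ, if Cn a a' t n then Wt N n else 0

lemma lcm_dvd_int (a b : ℕ) (x : ℤ) :
    ((Nat.lcm a b : ℕ) : ℤ) ∣ x ↔ (a : ℤ) ∣ x ∧ (b : ℤ) ∣ x := by
  rw [Int.natCast_dvd, Int.natCast_dvd, Int.natCast_dvd, Nat.lcm_dvd_iff]

lemma dvd_shift {q x y z : ℤ} (h : q ∣ y) (hz : z = x - y) : q ∣ x ↔ q ∣ z := by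
  subst hz
  exact ⟨fun h1 => dvd_sub h1 h, fun h1 => by have := dvd_add h1 h; simpa using this⟩

lemma Cn_iff {a a' : ℤ} {t : ℕ × ℕ × ℕ × ℕ} {n₀ : ℤ} (h0 : Cn a a' t n₀) (n : ℤ) :
    Cn a a' t n ↔ ((Mq t : ℕ) : ℤ) ∣ n - n₀ := by
  unfold Mq
  rw [lcm_dvd_int, lcm_dvd_int, lcm_dvd_int]
  obtain ⟨h1, h2, h3, h4⟩ := h0
  unfold Cn
  rw [dvd_shift h1 rfl, dvd_shift h2 rfl, dvd_shift h3 (z := n - n₀) (by ring),
    dvd_shift h4 (z := n - n₀) (by ring)]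
  tauto

lemma Wt_nonneg (N : ℕ) (n : ℤ) : 0 ≤ Wt N n := by unfold Wt; positivity

lemma St_eq (N : ℕ) {a a' : ℤ} {t : ℕ × ℕ × ℕ × ℕ} {n₀ : ℤ} (h0 : Cn a a' t n₀) :
    St N a a' t = ∑' n : ℤ, if ((Mq t : ℕ) : ℤ) ∣ n - n₀ then Wt N n else 0 := by
  unfold St
  refine tsum_congr ?_
  intro n
  by_cases h : Cn a a' t n
  · rw [if_pos h, if_pos ((Cn_iff h0 n).1 h)]
  · rw [if_neg h, if_neg (fun h' => h ((Cn_iff h0 n).2 h'))]

lemma St_zero (N : ℕ) {a a' : ℤ} {t : ℕ × ℕ × ℕ × ℕ} (h0 : ¬ ∃ n₀, Cn a a' t n₀) :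
    St N a a' t = 0 := by
  unfold St
  rw [tsum_congr (fun n => if_neg (fun h => h0 ⟨n, h⟩)), tsum_zero]

lemma St_nonneg (N : ℕ) (a a' : ℤ) (t : ℕ × ℕ × ℕ × ℕ) : 0 ≤ St N a a' t := by
  unfold St
  refine tsum_nonneg ?_
  intro n
  split_ifs
  · exact Wt_nonneg N n
  · exact le_refl _

lemma St_le (hGS : BX.St_GS) {N : ℕ} (hN : 1 ≤ N) {a a' : ℤ} {t : ℕ × ℕ × ℕ × ℕ}
    (hM1 : 1 ≤ Mq t) (hM : Mq t ≤ N) {n₀ : ℤ} (h0 : Cn a a' t n₀) :
    St N a a' t ≤ 8 * N / Mq t := by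
  rw [St_eq N h0]
  refine ((hGS N hN).2 (Mq t) n₀ hM1).trans ?_
  have h1 : (0 : ℝ) < Mq t := by exact_mod_cast hM1
  have h2 : (1 : ℝ) ≤ N / Mq t := by
    rw [le_div_iff₀ h1, one_mul]
    exact_mod_cast hM
  have h3 : 8 * (N : ℝ) / Mq t = 8 * (N / Mq t) := by ring
  rw [h3]
  linarith

lemma pois : ∃ N₀ : ℕ, ∀ N : ℕ, N₀ ≤ N → ∀ m : ℕ, 1 ≤ m → (m : ℝ) ≤ (N : ℝ) ^ 3 →
    (m : ℝ) * Real.log N ≤ N → ∀ c : ℤ,
    |(∑' n : ℤ, (if (m : ℤ) ∣ n - c then Wt N n else 0)) - N / m| ≤ 1 / (N : ℝ) ^ 5 := by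
  obtain ⟨N₀, h⟩ := poisson_trunc
  refine ⟨N₀, fun N hN m hm hmN hl c => ?_⟩
  have h1 := h N hN m hm hmN c 0 (by push_cast; linarith)
  have h2 : Icc (-((0 : ℕ) : ℤ)) ((0 : ℕ) : ℤ) = {0} := by simp
  rw [h2, sum_singleton] at h1
  simp only [Int.cast_zero, zero_mul, zero_div, ne_eq, OfNat.ofNat_ne_zero, not_false_eq_true,
    zero_pow, mul_zero, Real.exp_zero, Complex.ofReal_one, e_zero, mul_one] at h1
  rw [← Complex.ofReal_sub, Complex.norm_real, Real.norm_eq_abs] at h1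
  exact h1

lemma crt2 {m n : ℤ} (h : IsCoprime m n) (x y : ℤ) : ∃ z, m ∣ z - x ∧ n ∣ z - y := by
  obtain ⟨u, v, huv⟩ := h
  refine ⟨x * v * n + y * u * m, ⟨(y - x) * u, ?_⟩, ⟨(x - y) * v, ?_⟩⟩
  · linear_combination x * huv
  · linear_combination y * huv

lemma crt3 {q e e' : ℕ} (h1 : Nat.Coprime q e) (h2 : Nat.Coprime q e') (h3 : Nat.Coprime e e')
    (a a' : ℤ) : ∃ n : ℤ, (q : ℤ) ∣ n ∧ (e : ℤ) ∣ n - a ∧ (e' : ℤ) ∣ n - a' := by
  obtain ⟨z, hz1, hz2⟩ := crt2 (Nat.isCoprime_iff_coprime.2 h1) 0 a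
  have h4 : IsCoprime ((q : ℤ) * e) (e' : ℤ) :=
    IsCoprime.mul_left (Nat.isCoprime_iff_coprime.2 h2) (Nat.isCoprime_iff_coprime.2 h3)
  obtain ⟨w, hw1, hw2⟩ := crt2 h4 z a'
  refine ⟨w, ?_, ?_, hw2⟩
  · have h5 : (q : ℤ) ∣ w - z := (Dvd.intro _ rfl).trans hw1
    have := dvd_add h5 hz1
    simpa using this
  · have h5 : (e : ℤ) ∣ w - z := (Dvd.intro_left _ rfl).trans hw1
    have := dvd_add h5 hz2
    have h6 : w - z + (z - a) = w - a := by ring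
    rwa [h6] at this

lemma Mq_le_mul (t : ℕ × ℕ × ℕ × ℕ) (hadm : Adm t) {l : ℕ} (hl : l.Prime)
    (h : (l ∣ Nat.lcm t.1 t.2.1 ∧ l ∣ t.2.2.1) ∨ (l ∣ Nat.lcm t.1 t.2.1 ∧ l ∣ t.2.2.2) ∨
      (l ∣ t.2.2.1 ∧ l ∣ t.2.2.2)) :
    Mq t * l ≤ Nat.lcm t.1 t.2.1 * (t.2.2.1 * t.2.2.2) := by
  unfold Mq
  have hq0 : 0 < Nat.lcm t.1 t.2.1 :=
    Nat.lcm_pos (Nat.pos_of_ne_zero hadm.1.ne_zero) (Nat.pos_of_ne_zero hadm.2.1.ne_zero)
  have he0 : 0 < t.2.2.1 := Nat.pos_of_ne_zero hadm.2.2.1.ne_zero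
  have he0' : 0 < t.2.2.2 := Nat.pos_of_ne_zero hadm.2.2.2.ne_zero
  set q := Nat.lcm t.1 t.2.1 with hq
  set e := t.2.2.1
  set e' := t.2.2.2
  have hL0 : 0 < Nat.lcm e e' := Nat.lcm_pos he0 he0'
  have hLe : Nat.lcm e e' ≤ e * e' := Nat.le_of_dvd (Nat.mul_pos he0 he0') (Nat.lcm_dvd_mul e e')
  have key : l ∣ q → l ∣ Nat.lcm e e' → Nat.lcm q (Nat.lcm e e') * l ≤ q * (e * e') := by
    intro h1 h2
    have h3 : l ≤ Nat.gcd q (Nat.lcm e e') := Nat.le_of_dvd (Nat.gcd_pos_of_pos_left _ hq0) (Nat.dvd_gcd h1 h2)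
    calc Nat.lcm q (Nat.lcm e e') * l ≤ Nat.lcm q (Nat.lcm e e') * Nat.gcd q (Nat.lcm e e') :=
          Nat.mul_le_mul_left _ h3
      _ = q * Nat.lcm e e' := by rw [mul_comm, Nat.gcd_mul_lcm]
      _ ≤ q * (e * e') := Nat.mul_le_mul_left _ hLe
  rcases h with ⟨h1, h2⟩ | ⟨h1, h2⟩ | ⟨h1, h2⟩
  · exact key h1 (h2.trans (Nat.dvd_lcm_left _ _))
  · exact key h1 (h2.trans (Nat.dvd_lcm_right _ _))
  · have h3 : l ≤ Nat.gcd e e' := Nat.le_of_dvd (Nat.gcd_pos_of_pos_left _ he0) (Nat.dvd_gcd h1 h2)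
    have h4 : Nat.lcm q (Nat.lcm e e') ≤ q * Nat.lcm e e' :=
      Nat.le_of_dvd (Nat.mul_pos hq0 hL0) (Nat.lcm_dvd_mul _ _)
    calc Nat.lcm q (Nat.lcm e e') * l ≤ (q * Nat.lcm e e') * Nat.gcd e e' := Nat.mul_le_mul h4 h3
      _ = q * (e * e') := by rw [mul_assoc, mul_comm (Nat.lcm e e'), Nat.gcd_mul_lcm]

/-- the product of the integers whose prime factors are exceptional -/
def Aa (a a' : ℤ) : ℤ := a * a' * (a - a')

open Classical in
/-- the exceptional primes -/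
noncomputable def Ex (a a' : ℤ) (y : ℝ) : Finset ℕ :=
  (Aa a a').natAbs.primeFactors.filter (fun l => y ≤ (l : ℝ))

lemma per_t (hGS : BX.St_GS) {N₁ : ℕ}
    (hp : ∀ N : ℕ, N₁ ≤ N → ∀ m : ℕ, 1 ≤ m → (m : ℝ) ≤ (N : ℝ) ^ 3 →
      (m : ℝ) * Real.log N ≤ N → ∀ c : ℤ,
      |(∑' n : ℤ, (if (m : ℤ) ∣ n - c then Wt N n else 0)) - N / m| ≤ 1 / (N : ℝ) ^ 5)
    {N : ℕ} (hN1 : N₁ ≤ N) (hN : 3 ≤ N) {a a' : ℤ} (ha : a ≠ 0) (ha' : a' ≠ 0) (haa : a ≠ a')
    {t : ℕ × ℕ × ℕ × ℕ} (hadm : Adm t) {y : ℝ} (hy : 2 ≤ y)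
    (hP : ∀ l : ℕ, l.Prime → l ∣ t.2.2.1 ∨ l ∣ t.2.2.2 → y ≤ (l : ℝ))
    (hM : (Mq t : ℝ) * Real.log N ≤ N) (hMN : Mq t ≤ N) :
    |St N a a' t - N / ((Nat.lcm t.1 t.2.1 : ℝ) * ((t.2.2.1 : ℝ) * t.2.2.2))| ≤
      1 / (N : ℝ) ^ 5 + N / y * (1 / Mq t) +
        ∑ l ∈ (Ex a a' y).filter (fun l => l ∣ Mq t), 8 * N * (1 / (Mq t : ℝ)) := by
  have hN0 : (0 : ℝ) < N := by
    have : 0 < N := by omega
    exact_mod_cast this
  have hy0 : 0 < y := by linarith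
  have hM1 : 1 ≤ Mq t := Nat.pos_of_ne_zero (sqf_Mq hadm).ne_zero
  have hM0 : (0 : ℝ) < Mq t := by exact_mod_cast hM1
  have hq0 : 0 < Nat.lcm t.1 t.2.1 :=
    Nat.lcm_pos (Nat.pos_of_ne_zero hadm.1.ne_zero) (Nat.pos_of_ne_zero hadm.2.1.ne_zero)
  have he0 : 0 < t.2.2.1 := Nat.pos_of_ne_zero hadm.2.2.1.ne_zero
  have he0' : 0 < t.2.2.2 := Nat.pos_of_ne_zero hadm.2.2.2.ne_zero
  have hs0 : 0 ≤ ∑ l ∈ (Ex a a' y).filter (fun l => l ∣ Mq t), 8 * N * (1 / (Mq t : ℝ)) :=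
    sum_nonneg (fun _ _ => by positivity)
  have hb0 : 0 ≤ N / y * (1 / (Mq t : ℝ)) := by positivity
  by_cases hc : Nat.Coprime (Nat.lcm t.1 t.2.1) t.2.2.1 ∧ Nat.Coprime (Nat.lcm t.1 t.2.1) t.2.2.2 ∧
      Nat.Coprime t.2.2.1 t.2.2.2
  · obtain ⟨c1, c2, c3⟩ := hc
    obtain ⟨n₀, h1, h2, h3⟩ := crt3 c1 c2 c3 a a'
    rw [lcm_dvd_int] at h1
    have h0 : Cn a a' t n₀ := ⟨h1.1, h1.2, h2, h3⟩
    have hMe : (Mq t : ℝ) = (Nat.lcm t.1 t.2.1 : ℝ) * ((t.2.2.1 : ℝ) * t.2.2.2) := by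
      unfold Mq
      rw [c3.lcm_eq_mul, (Nat.Coprime.mul_right c1 c2).lcm_eq_mul]
      push_cast
      rfl
    have h4 := hp N hN1 (Mq t) hM1 (by
      calc (Mq t : ℝ) ≤ N := by exact_mod_cast hMN
        _ ≤ (N : ℝ) ^ 3 := by
          have : (1 : ℝ) ≤ N := by exact_mod_cast (by omega : 1 ≤ N)
          exact le_self_pow₀ this (by norm_num)) hM n₀
    rw [← St_eq N h0, hMe] at h4
    linarith
  · have hex : ∃ l : ℕ, l.Prime ∧ ((l ∣ Nat.lcm t.1 t.2.1 ∧ l ∣ t.2.2.1) ∨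
        (l ∣ Nat.lcm t.1 t.2.1 ∧ l ∣ t.2.2.2) ∨ (l ∣ t.2.2.1 ∧ l ∣ t.2.2.2)) := by
      by_contra hno
      push Not at hno
      apply hc
      refine ⟨?_, ?_, ?_⟩
      · by_contra h
        obtain ⟨l, hl, h1, h2⟩ := Nat.Prime.not_coprime_iff_dvd.1 h
        exact (hno l hl).1 h1 h2
      · by_contra h
        obtain ⟨l, hl, h1, h2⟩ := Nat.Prime.not_coprime_iff_dvd.1 h
        exact (hno l hl).2.1 h1 h2
      · by_contra h
        obtain ⟨l, hl, h1, h2⟩ := Nat.Prime.not_coprime_iff_dvd.1 h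
        exact (hno l hl).2.2 h1 h2
    obtain ⟨l, hl, hcase⟩ := hex
    have hyl : y ≤ (l : ℝ) := by
      refine hP l hl ?_
      rcases hcase with h | h | h
      · exact Or.inl h.2
      · exact Or.inr h.2
      · exact Or.inl h.1
    have hlM : l ∣ Mq t := by
      unfold Mq
      rcases hcase with h | h | h
      · exact h.1.trans (Nat.dvd_lcm_left _ _)
      · exact h.1.trans (Nat.dvd_lcm_left _ _)
      · exact (h.1.trans (Nat.dvd_lcm_left _ _)).trans (Nat.dvd_lcm_right _ _)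
    have hmul := Mq_le_mul t hadm hl hcase
    have hmain : N / ((Nat.lcm t.1 t.2.1 : ℝ) * ((t.2.2.1 : ℝ) * t.2.2.2)) ≤
        N / y * (1 / Mq t) := by
      have h1 : (Mq t : ℝ) * l ≤ (Nat.lcm t.1 t.2.1 : ℝ) * ((t.2.2.1 : ℝ) * t.2.2.2) := by
        exact_mod_cast hmul
      have h2 : (Mq t : ℝ) * y ≤ (Nat.lcm t.1 t.2.1 : ℝ) * ((t.2.2.1 : ℝ) * t.2.2.2) :=
        (mul_le_mul_of_nonneg_left hyl hM0.le).trans h1
      calc N / ((Nat.lcm t.1 t.2.1 : ℝ) * ((t.2.2.1 : ℝ) * t.2.2.2)) ≤ N / ((Mq t : ℝ) * y) :=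
            div_le_div_of_nonneg_left hN0.le (by positivity) h2
        _ = N / y * (1 / Mq t) := by field_simp
    have hmain0 : 0 ≤ N / ((Nat.lcm t.1 t.2.1 : ℝ) * ((t.2.2.1 : ℝ) * t.2.2.2)) := by positivity
    have hS0 := St_nonneg N a a' t
    have h5 : 0 ≤ 1 / (N : ℝ) ^ 5 := by positivity
    have hS : St N a a' t ≤ ∑ l ∈ (Ex a a' y).filter (fun l => l ∣ Mq t),
        8 * N * (1 / (Mq t : ℝ)) := by
      by_cases hsol : ∃ n₀, Cn a a' t n₀
      · obtain ⟨n₀, h0⟩ := hsol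
        have h6 := St_le hGS (by omega : 1 ≤ N) hM1 hMN h0
        have hA0 : Aa a a' ≠ 0 := by
          unfold Aa
          exact mul_ne_zero (mul_ne_zero ha ha') (sub_ne_zero.2 haa)
        have hlA : (l : ℤ) ∣ Aa a a' := by
          unfold Aa
          obtain ⟨g1, g2, g3, g4⟩ := h0
          have hq : ((Nat.lcm t.1 t.2.1 : ℕ) : ℤ) ∣ n₀ := (lcm_dvd_int _ _ _).2 ⟨g1, g2⟩
          rcases hcase with h | h | h
          · have k1 : (l : ℤ) ∣ n₀ := (Int.natCast_dvd_natCast.2 h.1).trans hq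
            have k2 : (l : ℤ) ∣ n₀ - a := (Int.natCast_dvd_natCast.2 h.2).trans g3
            have k3 : (l : ℤ) ∣ a := by
              have := dvd_sub k1 k2
              simpa using this
            exact (k3.mul_right _).mul_right _
          · have k1 : (l : ℤ) ∣ n₀ := (Int.natCast_dvd_natCast.2 h.1).trans hq
            have k2 : (l : ℤ) ∣ n₀ - a' := (Int.natCast_dvd_natCast.2 h.2).trans g4
            have k3 : (l : ℤ) ∣ a' := by
              have := dvd_sub k1 k2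
              simpa using this
            exact (k3.mul_left _).mul_right _
          · have k1 : (l : ℤ) ∣ n₀ - a := (Int.natCast_dvd_natCast.2 h.1).trans g3
            have k2 : (l : ℤ) ∣ n₀ - a' := (Int.natCast_dvd_natCast.2 h.2).trans g4
            have k3 : (l : ℤ) ∣ a - a' := by
              have := dvd_sub k2 k1
              have h6 : n₀ - a' - (n₀ - a) = a - a' := by ring
              rwa [h6] at this
            exact k3.mul_left _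
        have hmem : l ∈ (Ex a a' y).filter (fun l => l ∣ Mq t) := by
          refine mem_filter.2 ⟨mem_filter.2 ⟨?_, hyl⟩, hlM⟩
          exact Nat.mem_primeFactors.2 ⟨hl, Int.natCast_dvd.1 hlA, Int.natAbs_ne_zero.2 hA0⟩
        refine h6.trans ?_
        refine le_trans (le_of_eq ?_) (single_le_sum (f := fun _ => 8 * N * (1 / (Mq t : ℝ)))
          (fun _ _ => by positivity) hmem)
        ring
      · rw [St_zero N hsol]
        exact hs0
    rw [abs_le]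
    constructor
    · linarith
    · linarith

/-- all quadruples -/
def Qd (z D : ℕ) : Finset (ℕ × ℕ × ℕ × ℕ) := Icc 1 z ×ˢ Icc 1 z ×ˢ Icc 1 D ×ˢ Icc 1 D

/-- the coefficients -/
noncomputable def cf (lam th th' : ℕ → ℝ) (t : ℕ × ℕ × ℕ × ℕ) : ℝ :=
  lam t.1 * lam t.2.1 * (th t.2.2.1 * th' t.2.2.2)

open Classical in
lemma pointwise (N z D : ℕ) (lam th th' : ℕ → ℝ) (a a' n : ℤ) :
    Wt N n * BX.nuS lam z n * (Ev th D (n - a) * Ev th' D (n - a')) =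
      ∑ t ∈ Qd z D, cf lam th th' t * (if Cn a a' t n then Wt N n else 0) := by
  unfold Qd
  simp only [sum_product]
  have h1 : ∀ q₁ q₂ e e' : ℕ, cf lam th th' (q₁, q₂, e, e') *
      (if Cn a a' (q₁, q₂, e, e') n then Wt N n else 0) =
      Wt N n * (if (q₁ : ℤ) ∣ n then lam q₁ else 0) * (if (q₂ : ℤ) ∣ n then lam q₂ else 0) *
        (th e * (if (e : ℤ) ∣ n - a then 1 else 0)) *
        (th' e' * (if (e' : ℤ) ∣ n - a' then 1 else 0)) := by
    intro q₁ q₂ e e'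
    unfold cf Cn
    simp only
    by_cases c1 : (q₁ : ℤ) ∣ n <;> by_cases c2 : (q₂ : ℤ) ∣ n <;>
      by_cases c3 : (e : ℤ) ∣ n - a <;> by_cases c4 : (e' : ℤ) ∣ n - a' <;>
      simp [c1, c2, c3, c4] <;> ring
  simp only [h1, ← mul_sum, ← sum_mul]
  unfold BX.nuS Ev
  rw [sum_filter]
  ring

lemma expand {N : ℕ} (hN : 1 ≤ N) (z D : ℕ) (lam th th' : ℕ → ℝ) (a a' : ℤ) :
    ∑' n : ℤ, Wt N n * BX.nuS lam z n * (Ev th D (n - a) * Ev th' D (n - a')) =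
      ∑ t ∈ Qd z D, cf lam th th' t * St N a a' t := by
  classical
  rw [tsum_congr (pointwise N z D lam th th' a a')]
  have hs : ∀ t ∈ Qd z D, Summable (fun n : ℤ => cf lam th th' t *
      (if Cn a a' t n then Wt N n else 0)) := by
    intro t _
    refine Summable.mul_left _ ?_
    refine Summable.of_nonneg_of_le ?_ ?_ (TaskS.summable_Wt N hN)
    · intro n
      split_ifs
      · exact Wt_nonneg N n
      · exact le_refl _
    · intro n
      split_ifs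
      · exact le_refl _
      · exact Wt_nonneg N n
  rw [Summable.tsum_finsetSum hs]
  refine sum_congr rfl ?_
  intro t _
  rw [tsum_mul_left]
  rfl

lemma mainterm (N z D : ℕ) (lam th th' : ℕ → ℝ) :
    N * LF lam z * (hat th D * hat th' D) = ∑ t ∈ Qd z D, cf lam th th' t *
      (N / ((Nat.lcm t.1 t.2.1 : ℝ) * ((t.2.2.1 : ℝ) * t.2.2.2))) := by
  unfold Qd
  simp only [sum_product]
  have h1 : ∀ q₁ q₂ e e' : ℕ, cf lam th th' (q₁, q₂, e, e') *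
      (N / ((Nat.lcm q₁ q₂ : ℝ) * ((e : ℝ) * e'))) =
      N * (lam q₁ * lam q₂ / (Nat.lcm q₁ q₂ : ℝ)) * (th e / e) * (th' e' / e') := by
    intro q₁ q₂ e e'
    unfold cf
    simp only [div_eq_mul_inv, mul_inv]
    ring
  simp only [h1, ← mul_sum, ← sum_mul]
  unfold LF hat
  ring

/-- **COR** -/
theorem COR (hGS : BX.St_GS) : St_COR := by
  obtain ⟨N₁, hp⟩ := pois
  refine ⟨2 ^ 16 * 1025, max N₁ 100, by norm_num, ?_⟩
  intro N hN z D hz hD lam hlam P y hy hP U th th' hU hth hth' a a' ha ha' haa hab hab'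
  have hN1 : N₁ ≤ N := (le_max_left _ _).trans hN
  have hN100 : 100 ≤ N := (le_max_right _ _).trans hN
  have hNr : (100 : ℝ) ≤ N := by exact_mod_cast hN100
  have hN0 : (0 : ℝ) < N := by linarith
  have hy0 : 0 < y := by linarith
  set r : ℝ := (N : ℝ) ^ (1 / 20 : ℝ) with hr
  have hr0 : 0 < r := Real.rpow_pos_of_pos hN0 _
  have hr20 : r ^ 20 = N := by
    rw [hr, ← Real.rpow_natCast, ← Real.rpow_mul hN0.le]
    norm_num
  have hr1 : 1 ≤ r := Real.one_le_rpow (by linarith) (by norm_num)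
  have hlog1 : 1 ≤ Real.log N := by
    rw [Real.le_log_iff_exp_le hN0]
    have := Real.exp_one_lt_d9
    linarith
  -- the logarithm
  have hlogr : Real.log N ≤ r ^ 16 := by
    have h1 : Real.log N ≤ (N : ℝ) ^ (1 / 2 : ℝ) / (1 / 2) := Real.log_le_rpow_div hN0.le (by norm_num)
    have h2 : (N : ℝ) ^ (1 / 2 : ℝ) = r ^ 10 := by
      rw [hr, ← Real.rpow_natCast, ← Real.rpow_mul hN0.le]
      norm_num
    have h3 : 2 ≤ r ^ 6 := by
      by_contra h3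
      push Not at h3
      have h4 : r ^ 20 < 100 := by
        have h5 : r ^ 18 < 8 := by
          calc r ^ 18 = (r ^ 6) ^ 3 := by ring
            _ < 2 ^ 3 := by gcongr
            _ = 8 := by norm_num
        have h6 : r ^ 2 ≤ r ^ 6 := pow_le_pow_right₀ hr1 (by norm_num)
        nlinarith
      linarith
    rw [h2] at h1
    have h4 : r ^ 16 = r ^ 10 * r ^ 6 := by ring
    have h5 : 0 < r ^ 10 := by positivity
    nlinarith
  have hLsum := harm_le (by omega : 3 ≤ N)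
  set H : ℝ := ∑ m ∈ Icc 1 N, (1 : ℝ) / m with hH
  have hH0 : 0 ≤ H := sum_nonneg (fun _ _ => by positivity)
  have hH16 : H ^ 16 ≤ 2 ^ 16 * Real.log N ^ 16 := by
    calc H ^ 16 ≤ (2 * Real.log N) ^ 16 := pow_le_pow_left₀ hH0 hLsum 16
      _ = _ := by ring
  -- the quadruples with nonzero coefficients
  classical
  set Q : Finset (ℕ × ℕ × ℕ × ℕ) := (Qd z D).filter (fun t => cf lam th th' t ≠ 0) with hQdef
  have hQ : ∀ t ∈ Q, Adm t ∧ Mq t ≤ N ∧ (Mq t : ℝ) * Real.log N ≤ N ∧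
      (∀ l : ℕ, l.Prime → l ∣ t.2.2.1 ∨ l ∣ t.2.2.2 → y ≤ (l : ℝ)) := by
    intro t ht
    obtain ⟨ht1, ht2⟩ := mem_filter.1 ht
    unfold Qd at ht1
    simp only [mem_product, mem_Icc] at ht1
    obtain ⟨⟨a1, a2⟩, ⟨b1, b2⟩, ⟨c1, c2⟩, ⟨d1, d2⟩⟩ := ht1
    unfold cf at ht2
    have e1 : lam t.1 ≠ 0 := fun h => ht2 (by rw [h]; ring)
    have e2 : lam t.2.1 ≠ 0 := fun h => ht2 (by rw [h]; ring)
    have e3 : th t.2.2.1 ≠ 0 := fun h => ht2 (by rw [h]; ring)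
    have e4 : th' t.2.2.2 ≠ 0 := fun h => ht2 (by rw [h]; ring)
    have hMr : (Mq t : ℝ) ≤ r ^ 4 := by
      have h1 : Mq t ≤ (t.1 * t.2.1) * (t.2.2.1 * t.2.2.2) := by
        unfold Mq
        refine (Nat.le_of_dvd ?_ (Nat.lcm_dvd_mul _ _)).trans ?_
        · exact Nat.mul_pos (Nat.lcm_pos a1 b1) (Nat.lcm_pos c1 d1)
        · exact Nat.mul_le_mul (Nat.le_of_dvd (Nat.mul_pos a1 b1) (Nat.lcm_dvd_mul _ _))
            (Nat.le_of_dvd (Nat.mul_pos c1 d1) (Nat.lcm_dvd_mul _ _))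
      have h2 : (Mq t : ℝ) ≤ ((t.1 : ℝ) * t.2.1) * ((t.2.2.1 : ℝ) * t.2.2.2) := by
        exact_mod_cast h1
      have k1 : (t.1 : ℝ) ≤ r := le_trans (by exact_mod_cast a2) hz
      have k2 : (t.2.1 : ℝ) ≤ r := le_trans (by exact_mod_cast b2) hz
      have k3 : (t.2.2.1 : ℝ) ≤ r := le_trans (by exact_mod_cast c2) hD
      have k4 : (t.2.2.2 : ℝ) ≤ r := le_trans (by exact_mod_cast d2) hD
      calc (Mq t : ℝ) ≤ ((t.1 : ℝ) * t.2.1) * ((t.2.2.1 : ℝ) * t.2.2.2) := h2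
        _ ≤ (r * r) * (r * r) := by gcongr
        _ = r ^ 4 := by ring
    refine ⟨⟨hlam.sqf _ e1, hlam.sqf _ e2, (hth.supp _ e3).1, (hth'.supp _ e4).1⟩, ?_, ?_, ?_⟩
    · have : (Mq t : ℝ) ≤ N := by
        calc (Mq t : ℝ) ≤ r ^ 4 := hMr
          _ ≤ r ^ 20 := pow_le_pow_right₀ hr1 (by norm_num)
          _ = N := hr20
      exact_mod_cast this
    · calc (Mq t : ℝ) * Real.log N ≤ r ^ 4 * r ^ 16 := by
            gcongr
        _ = N := by rw [← hr20]; ring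
    · intro l hl hlt
      rcases hlt with h | h
      · exact (hP l ((hth.supp _ e3).2.2 l hl h)).2
      · exact (hP l ((hth'.supp _ e4).2.2 l hl h)).2
  have hcf : ∀ t, |cf lam th th' t| ≤ U ^ 2 := by
    intro t
    unfold cf
    rw [abs_mul, abs_mul, abs_mul]
    have h1 := hlam.sw.bd t.1
    have h2 := hlam.sw.bd t.2.1
    have h3 := hth.bd t.2.2.1
    have h4 := hth'.bd t.2.2.2
    calc |lam t.1| * |lam t.2.1| * (|th t.2.2.1| * |th' t.2.2.2|) ≤ 1 * 1 * (U * U) := by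
          gcongr
      _ = U ^ 2 := by ring
  -- the difference
  have hdiff : ∑' n : ℤ, Wt N n * BX.nuS lam z n * (Ev th D (n - a) * Ev th' D (n - a')) -
      N * LF lam z * (hat th D * hat th' D) = ∑ t ∈ Q, cf lam th th' t *
        (St N a a' t - N / ((Nat.lcm t.1 t.2.1 : ℝ) * ((t.2.2.1 : ℝ) * t.2.2.2))) := by
    rw [expand (by omega : 1 ≤ N), mainterm, ← sum_sub_distrib, hQdef, sum_filter]
    refine sum_congr rfl ?_
    intro t _
    by_cases h : cf lam th th' t ≠ 0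
    · rw [if_pos h]; ring
    · rw [if_neg h]
      push Not at h
      rw [h]; ring
  rw [hdiff]
  have hQcard : (Q.card : ℝ) ≤ (N : ℝ) ^ 5 := by
    have h1 : Q.card ≤ (Qd z D).card := card_le_card (filter_subset _ _)
    have h2 : (Qd z D).card = z * (z * (D * D)) := by
      unfold Qd
      simp only [card_product, Nat.card_Icc, Nat.add_sub_cancel]
    have h3 : (Q.card : ℝ) ≤ (z : ℝ) * (z * (D * D)) := by
      rw [h2] at h1
      exact_mod_cast h1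
    have h4 : (z : ℝ) * (z * (D * D)) ≤ r * (r * (r * r)) := by gcongr
    calc (Q.card : ℝ) ≤ r * (r * (r * r)) := h3.trans h4
      _ = r ^ 4 := by ring
      _ ≤ r ^ 100 := pow_le_pow_right₀ hr1 (by norm_num)
      _ = (N : ℝ) ^ 5 := by rw [← hr20]; ring
  have hQ' : ∀ t ∈ Q, Adm t ∧ Mq t ≤ N := fun t ht => ⟨(hQ t ht).1, (hQ t ht).2.1⟩
  have hall := quad_all N Q hQ'
  have hdvd := quad_dvd N Q hQ'
  rw [← hH] at hall
  -- the number of exceptional primes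
  have hEx : ((Ex a a' y).card : ℝ) ≤ 8 * Real.log N := by
    have hA0 : Aa a a' ≠ 0 := by
      unfold Aa
      exact mul_ne_zero (mul_ne_zero ha ha') (sub_ne_zero.2 haa)
    have h1 : ((Ex a a' y).card : ℝ) ≤ ((Aa a a').natAbs.primeFactors.card : ℝ) := by
      exact_mod_cast card_le_card (filter_subset _ _)
    have h2 := card_pf (Aa a a').natAbs (Int.natAbs_ne_zero.2 hA0)
    have h3 : (((Aa a a').natAbs : ℕ) : ℝ) ≤ (N : ℝ) ^ 4 := by
      have h4 : (((Aa a a').natAbs : ℕ) : ℝ) = |(a : ℝ)| * |(a' : ℝ)| * |(a : ℝ) - a'| := by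
        rw [Nat.cast_natAbs]
        unfold Aa
        push_cast
        rw [abs_mul, abs_mul]
      rw [h4]
      have h5 : |(a : ℝ) - a'| ≤ 4 * N := by
        refine (abs_sub _ _).trans ?_
        linarith
      calc |(a : ℝ)| * |(a' : ℝ)| * |(a : ℝ) - a'| ≤ (2 * N) * (2 * N) * (4 * N) := by gcongr
        _ = 16 * (N : ℝ) ^ 3 := by ring
        _ ≤ N * (N : ℝ) ^ 3 := by
          gcongr
          linarith
        _ = (N : ℝ) ^ 4 := by ring
    have h6 : Real.log (((Aa a a').natAbs : ℕ) : ℝ) ≤ 4 * Real.log N := by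
      have h7 : (0 : ℝ) < (((Aa a a').natAbs : ℕ) : ℝ) := by
        exact_mod_cast Int.natAbs_pos.2 hA0
      have := Real.log_le_log h7 h3
      rw [Real.log_pow] at this
      push_cast at this
      exact this
    linarith
  have hL0 : 0 ≤ Real.log N := by linarith
  -- the sum of the bounds
  calc |∑ t ∈ Q, cf lam th th' t *
        (St N a a' t - N / ((Nat.lcm t.1 t.2.1 : ℝ) * ((t.2.2.1 : ℝ) * t.2.2.2)))|
      ≤ ∑ t ∈ Q, |cf lam th th' t *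
        (St N a a' t - N / ((Nat.lcm t.1 t.2.1 : ℝ) * ((t.2.2.1 : ℝ) * t.2.2.2)))| :=
        abs_sum_le_sum_abs _ _
    _ ≤ ∑ t ∈ Q, U ^ 2 * (1 / (N : ℝ) ^ 5 + N / y * (1 / Mq t) +
        ∑ l ∈ (Ex a a' y).filter (fun l => l ∣ Mq t), 8 * N * (1 / (Mq t : ℝ))) := by
        refine sum_le_sum ?_
        intro t ht
        obtain ⟨g1, g2, g3, g4⟩ := hQ t ht
        rw [abs_mul]
        exact mul_le_mul (hcf t) (per_t hGS hp hN1 (by omega) ha ha' haa g1 hy g4 g3 g2)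
          (abs_nonneg _) (by positivity)
    _ = U ^ 2 * (Q.card * (1 / (N : ℝ) ^ 5) + N / y * ∑ t ∈ Q, (1 / (Mq t : ℝ)) +
        ∑ t ∈ Q, ∑ l ∈ (Ex a a' y).filter (fun l => l ∣ Mq t), 8 * N * (1 / (Mq t : ℝ))) := by
        rw [← mul_sum, sum_add_distrib, sum_add_distrib, sum_const, nsmul_eq_mul, ← mul_sum]
    _ = U ^ 2 * (Q.card * (1 / (N : ℝ) ^ 5) + N / y * ∑ t ∈ Q, (1 / (Mq t : ℝ)) +
        ∑ l ∈ Ex a a' y, 8 * N * ∑ t ∈ Q.filter (fun t => l ∣ Mq t), (1 / (Mq t : ℝ))) := by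
        congr 2
        simp only [sum_filter, mul_sum]
        rw [sum_comm]
        refine sum_congr rfl ?_
        intro l _
        refine sum_congr rfl ?_
        intro t _
        split_ifs
        · rfl
        · ring
    _ ≤ U ^ 2 * (1 + N / y * H ^ 16 + ∑ l ∈ Ex a a' y, 8 * N * (16 / y * H ^ 16)) := by
        refine mul_le_mul_of_nonneg_left ?_ (by positivity)
        refine add_le_add (add_le_add ?_ ?_) ?_
        · rw [mul_one_div, div_le_one (by positivity)]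
          exact hQcard
        · exact mul_le_mul_of_nonneg_left hall (by positivity)
        · refine sum_le_sum ?_
          intro l hl
          obtain ⟨hl1, hl2⟩ := mem_filter.1 hl
          have h1 := hdvd l (Nat.prime_of_mem_primeFactors hl1)
          rw [← hH] at h1
          refine mul_le_mul_of_nonneg_left (h1.trans ?_) (by positivity)
          refine mul_le_mul_of_nonneg_right ?_ (by positivity)
          exact div_le_div_of_nonneg_left (by norm_num) hy0 hl2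
    _ = U ^ 2 * (1 + N / y * H ^ 16 * (1 + 128 * (Ex a a' y).card)) := by
        rw [sum_const, nsmul_eq_mul]
        ring
    _ ≤ U ^ 2 * (1 + N / y * (2 ^ 16 * Real.log N ^ 16) * (1025 * Real.log N)) := by
        have h1 : 1 + 128 * ((Ex a a' y).card : ℝ) ≤ 1025 * Real.log N := by linarith
        gcongr
    _ ≤ 2 ^ 16 * 1025 * U ^ 2 * (N * Real.log N ^ 20 / y + 1) := by
        have h1 : Real.log N ^ 17 ≤ Real.log N ^ 20 := pow_le_pow_right₀ hlog1 (by norm_num)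
        have h2 : N / y * (2 ^ 16 * Real.log N ^ 16) * (1025 * Real.log N) =
          2 ^ 16 * 1025 * (N / y * Real.log N ^ 17) := by ring
        rw [h2]
        have h3 : N / y * Real.log N ^ 17 ≤ N * Real.log N ^ 20 / y := by
          rw [mul_div_right_comm]
          gcongr
        have h4 : 0 ≤ U ^ 2 := by positivity
        calc U ^ 2 * (1 + 2 ^ 16 * 1025 * (N / y * Real.log N ^ 17)) ≤
            U ^ 2 * (2 ^ 16 * 1025 * 1 + 2 ^ 16 * 1025 * (N * Real.log N ^ 20 / y)) := by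
              gcongr
              norm_num
          _ = _ := by ring

end Pool.Agent.U928.PL
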